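import Pool.Agent.Q211.PF.Large

/-!
# Everywhere large Kurepa trees as continuous images

`GB κ` is the generalised Baire space with the bounded topology (`Pool.Agent.Q211.PF.Def`);
trees, `body T = [T]`, `IsKurepa κ μ T`, `EverywhereLarge T` and `ContinuousImage` are defined in
`Pool.Agent.Q211.PF.Tree`. For `κ = ℵ₂` and `μ = ℵ₁` these are the notions of the problem.
-/

namespace Pool.Agent.Results.MP_177a3e_lc.EverywhereLargeExists

open Cardinal Set Order Pool.Agent.Q211.PF

universe u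

/-- (ZFC) If the branch set of some `ω₂`-Kurepa tree is a continuous image of the generalised
Baire space of `ω₂`, then the branch set of some everywhere large `ω₂`-Kurepa tree is a continuous
image of it. Hence the implication of Q1 (no everywhere large Kurepa tree has such a branch set)
is equivalent to the same implication for all `ω₂`-Kurepa trees. The same holds at every successor
cardinal. -/
theorem result :
    ((∃ T : Set (Node (ℵ_ 2 : Cardinal.{u})), IsKurepa (ℵ_ 2) ℵ₁ T ∧ ContinuousImage (body T)) →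
      ∃ T : Set (Node (ℵ_ 2 : Cardinal.{u})), IsKurepa (ℵ_ 2) ℵ₁ T ∧ EverywhereLarge T ∧
        ContinuousImage (body T)) ∧
    ((∀ T : Set (Node (ℵ_ 2 : Cardinal.{u})), IsKurepa (ℵ_ 2) ℵ₁ T → EverywhereLarge T →
        ¬ ContinuousImage (body T)) ↔
      ∀ T : Set (Node (ℵ_ 2 : Cardinal.{u})), IsKurepa (ℵ_ 2) ℵ₁ T → ¬ ContinuousImage (body T)) ∧
    ∀ μ : Cardinal.{u}, ℵ₀ ≤ μ →
      (∃ T : Set (Node (succ μ)), IsKurepa (succ μ) μ T ∧ ContinuousImage (body T)) →
      ∃ T : Set (Node (succ μ)), IsKurepa (succ μ) μ T ∧ EverywhereLarge T ∧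
        ContinuousImage (body T) := by
  have h2 : (ℵ_ 2 : Cardinal.{u}) = succ ℵ₁ := by
    rw [← aleph_succ]
    congr 1
    exact (Ordinal.succ_one).symm
  have h : (∃ T : Set (Node (ℵ_ 2 : Cardinal.{u})), IsKurepa (ℵ_ 2) ℵ₁ T ∧
      ContinuousImage (body T)) → ∃ T : Set (Node (ℵ_ 2 : Cardinal.{u})),
      IsKurepa (ℵ_ 2) ℵ₁ T ∧ EverywhereLarge T ∧ ContinuousImage (body T) := by
    rintro ⟨T, hT, hc⟩
    exact main (aleph0_le_aleph 1) h2 hT hc
  refine ⟨h, ⟨fun hE T hT hc => ?_, fun hA T hT _ => hA T hT⟩, ?_⟩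
  · obtain ⟨T', h1, h3, h4⟩ := h ⟨T, hT, hc⟩
    exact hE T' h1 h3 h4
  · rintro μ hμ ⟨T, hT, hc⟩
    exact main hμ rfl hT hc

end Pool.Agent.Results.MP_177a3e_lc.EverywhereLargeExists
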